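import Pool.Agent.H86.CMLib.W528.Odd.Stms2
import Pool.Agent.H86.CMLib.W261.OT.NoOrth

/-!
# SPLIT: two commuting spaces of operators of trace zero that together act irreducibly
(adapted from helper261's `NoOrth`)
-/

set_option autoImplicit false

namespace Pool.Agent.W925.OT.Split

open Module Pool.Agent.W528.Odd Pool.Agent.W261.OT.NoOrth

/-- The product statement for operators in double centralisers. -/
theorem prod {K : Type} [Field K] {V : Type} [AddCommGroup V] [Module K V]
    {𝔨 𝔨' : Submodule K (Module.End K V)} (comm : ∀ x ∈ 𝔨, ∀ y ∈ 𝔨', x * y = y * x)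
    (stab : ∀ W : Submodule K V, (∀ x ∈ 𝔨, ∀ u ∈ W, x u ∈ W) → (∀ x ∈ 𝔨', ∀ u ∈ W, x u ∈ W) →
      W = ⊥ ∨ W = ⊤) (x y : Module.End K V) (hx : ∀ s' ∈ 𝔨', x * s' = s' * x)
    (hy : ∀ b : Module.End K V, (∀ s' ∈ 𝔨', b * s' = s' * b) → b * y = y * b)
    (hxy : x * y = 0) : x = 0 ∨ y = 0 := by
  let W : Submodule K V :=
    { carrier := {v | ∀ b : Module.End K V, (∀ s' ∈ 𝔨', b * s' = s' * b) → x (b v) = 0}
      zero_mem' := by intro b _; simp
      add_mem' := by
        intro a c ha hc b hb
        rw [map_add, map_add, ha b hb, hc b hb, add_zero]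
      smul_mem' := by
        intro c a ha b hb
        rw [map_smul, map_smul, ha b hb, smul_zero] }
  rcases stab W (by
    intro s h1 u hu b hb
    have := hu (b * s) (by
      intro s' h2
      rw [mul_assoc, comm s h1 s' h2, ← mul_assoc, hb s' h2, mul_assoc])
    exact this) (by
    intro s' h1 u hu b hb
    have e1 : x (b (s' u)) = (x * b * s') u := rfl
    have e2 : x * b * s' = s' * (x * b) := by
      rw [mul_assoc, hb s' h1, ← mul_assoc, hx s' h1, mul_assoc]
    rw [e1, e2]
    change s' (x (b u)) = 0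
    rw [hu b hb, map_zero]) with h | h
  · right
    refine LinearMap.ext fun v => ?_
    have h1 : y v ∈ W := by
      intro b hb
      have e1 : x (b (y v)) = (x * (b * y)) v := rfl
      rw [e1, hy b hb, ← mul_assoc, hxy]
      simp
    rw [h, Submodule.mem_bot] at h1
    exact h1
  · left
    refine LinearMap.ext fun v => ?_
    have h1 : v ∈ W := by
      rw [h]
      trivial
    have := h1 1 (by intro s' _; rw [one_mul, mul_one])
    simpa using this

theorem main : Pool.Agent.W528.Odd.Split := by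
  intro K _ _ _ V _ _ _ 𝔨 𝔨' comm htr stab
  refine ⟨fun x hx y hy hxy => prod comm stab x y (fun s' hs' => comm x hx s' hs')
    (fun b hb => hb y hy) hxy, ?_⟩
  intro N1 hN1 N2 hN2 hNN
  rcases subsingleton_or_nontrivial V with hV | hnt
  · left
    exact LinearMap.ext fun v => Subsingleton.elim _ _
  obtain ⟨N, hN12⟩ : ∃ N, N = N1 + N2 := ⟨_, rfl⟩
  rw [← hN12] at hNN
  have hc12 : N1 * N2 = N2 * N1 := comm N1 hN1 N2 hN2
  obtain ⟨t, ht⟩ := Module.End.exists_eigenvalue N1
  have hcN1 : Commute N N1 := by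
    rw [hN12]
    exact ((Commute.refl N1).add_left hc12.symm)
  have hcN2 : Commute N N2 := by
    rw [hN12]
    exact (Commute.add_left hc12 (Commute.refl N2))
  have hE : N1.maxGenEigenspace t = N2.maxGenEigenspace (-t) := by
    have a1 : N2 - (-t) • (1 : Module.End K V) = N + -(N1 - t • (1 : Module.End K V)) := by
      rw [hN12]
      module
    have a2 : N1 - t • (1 : Module.End K V) = N + -(N2 - (-t) • (1 : Module.End K V)) := by
      rw [hN12]
      module
    have c1 : Commute N (-(N1 - t • (1 : Module.End K V))) :=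
      ((hcN1.sub_right ((Commute.one_right N).smul_right t))).neg_right
    have c2 : Commute N (-(N2 - (-t) • (1 : Module.End K V))) :=
      ((hcN2.sub_right ((Commute.one_right N).smul_right (-t)))).neg_right
    have k : ∀ (A B : Module.End K V), B = N + -A → Commute N (-A) → ∀ (v : V) (k : ℕ),
        (A ^ k) v = 0 → (B ^ (k + 1)) v = 0 := by
      intro A B h1 h2 v k h3
      have hneg : ((-A) ^ k) v = 0 := by
        rw [neg_pow]
        change ((-1 : Module.End K V) ^ k) ((A ^ k) v) = 0
        rw [h3, map_zero]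
      rw [h1, sqz N (-A) hNN h2 k]
      rw [LinearMap.add_apply, LinearMap.smul_apply, pow_succ']
      change (-A) (((-A) ^ k) v) + _ • N (((-A) ^ k) v) = 0
      rw [hneg, map_zero, map_zero, smul_zero, add_zero]
    ext v
    rw [Module.End.mem_maxGenEigenspace, Module.End.mem_maxGenEigenspace]
    constructor
    · rintro ⟨q, hq⟩
      exact ⟨q + 1, k _ _ a1 c1 v q hq⟩
    · rintro ⟨q, hq⟩
      exact ⟨q + 1, k _ _ a2 c2 v q hq⟩
  have hEtop : N1.maxGenEigenspace t = ⊤ := by
    rcases stab (N1.maxGenEigenspace t) (by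
      intro s hs1 u hu
      rw [hE] at hu ⊢
      exact Module.End.mapsTo_maxGenEigenspace_of_comm (comm s hs1 N2 hN2).symm (-t) hu) (by
      intro s hs1 u hu
      exact Module.End.mapsTo_maxGenEigenspace_of_comm (comm N1 hN1 s hs1) t hu) with h | h
    · exfalso
      obtain ⟨v, hv⟩ := ht.exists_hasEigenvector
      have h1 : v ∈ N1.maxGenEigenspace t := by
        rw [Module.End.mem_maxGenEigenspace]
        refine ⟨1, ?_⟩
        rw [pow_one, LinearMap.sub_apply, hv.apply_eq_smul]
        simp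
      rw [h, Submodule.mem_bot] at h1
      exact hv.2 h1
    · exact h
  have nil : ∀ (A : Module.End K V) (q : K), A.maxGenEigenspace q = ⊤ →
      IsNilpotent (A - q • (1 : Module.End K V)) := by
    intro A q h
    rw [Module.End.isNilpotent_iff_of_finite]
    intro v
    have h1 : v ∈ A.maxGenEigenspace q := by
      rw [h]
      trivial
    exact (Module.End.mem_maxGenEigenspace _ _ _).1 h1
  have n1 := nil N1 t hEtop
  have ht0 : t = 0 := by
    have h1 := LinearMap.isNilpotent_trace_of_isNilpotent n1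
    rw [isNilpotent_iff_eq_zero, map_sub, map_smul, htr N1 hN1,
      LinearMap.trace_one, zero_sub, neg_eq_zero, smul_eq_mul] at h1
    rcases mul_eq_zero.1 h1 with h | h
    · exact h
    · exfalso
      have h2 : (finrank K V : K) ≠ 0 := Nat.cast_ne_zero.2 finrank_pos.ne'
      exact h2 h
  have n2 := nil N2 (-t) (hE ▸ hEtop)
  rw [ht0, zero_smul, sub_zero] at n1
  rw [ht0, neg_zero, zero_smul, sub_zero] at n2
  by_contra hcon
  push Not at hcon
  obtain ⟨hne1, hne2⟩ := hcon
  -- degrees of nilpotency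
  have deg : ∀ A : Module.End K V, A ≠ 0 → IsNilpotent A →
      ∃ a : ℕ, A ^ (a + 2) = 0 ∧ A ^ (a + 1) ≠ 0 := by
    intro A hA hA'
    classical
    have h1 := Nat.find_spec hA'
    have h2 : Nat.find hA' ≠ 0 := by
      intro h0
      rw [h0, pow_zero] at h1
      exact one_ne_zero h1
    have h3 : Nat.find hA' ≠ 1 := by
      intro h0
      rw [h0, pow_one] at h1
      exact hA h1
    obtain ⟨a, ha⟩ : ∃ a, Nat.find hA' = a + 2 := ⟨Nat.find hA' - 2, by omega⟩
    refine ⟨a, ha ▸ h1, ?_⟩
    exact Nat.find_min hA' (by omega)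
  obtain ⟨a, ha, ha'⟩ := deg N1 hne1 n1
  obtain ⟨b, hb, hb'⟩ := deg N2 hne2 n2
  have hzero : N1 ^ (a + 1) * N2 ^ (b + 1) = 0 := by
    have hNN' : N1 * N1 + (N1 * N2 + N1 * N2) + N2 * N2 = 0 := by
      have := hNN
      rw [hN12, add_mul, mul_add, mul_add, ← hc12] at this
      rw [← this]
      abel
    have hcp : Commute N1 N2 := hc12
    have e1 : N1 ^ a * N2 ^ b * (N1 * N1) = 0 := by
      rw [mul_assoc, (hcp.mul_left hcp).symm.pow_left b |>.eq, ← mul_assoc, ← pow_two,
        ← pow_add, ha, zero_mul]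
    have e2 : N1 ^ a * N2 ^ b * (N1 * N2) = N1 ^ (a + 1) * N2 ^ (b + 1) := by
      rw [pow_succ, pow_succ, mul_assoc, mul_assoc, ← mul_assoc (N2 ^ b) N1 N2,
        (hcp.symm.pow_left b).eq, mul_assoc N1]
    have e3 : N1 ^ a * N2 ^ b * (N2 * N2) = 0 := by
      rw [mul_assoc, ← pow_two, ← pow_add, hb, mul_zero]
    have e4 := congrArg (fun z => N1 ^ a * N2 ^ b * z) hNN'
    simp only [mul_add, e1, e2, e3, mul_zero, zero_add, add_zero] at e4
    have e5 : (2 : K) • (N1 ^ (a + 1) * N2 ^ (b + 1)) = 0 := by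
      rw [two_smul]
      exact e4
    exact (smul_eq_zero.1 e5).resolve_left (two_ne_zero' K)
  rcases prod comm stab (N1 ^ (a + 1)) (N2 ^ (b + 1)) (by
    intro s' hs'
    exact (Commute.pow_left (comm N1 hN1 s' hs') (a + 1) : Commute (N1 ^ (a + 1)) s')) (by
    intro c hc
    exact (Commute.pow_right (hc N2 hN2) (b + 1) : Commute c (N2 ^ (b + 1)))) hzero with h | h
  · exact ha' h
  · exact hb' h

end Pool.Agent.W925.OT.Split
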